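import Pool.Agent.N659.HB.Stm7

/-! Project LD, part TVA: a small Cauchy component changes an absolutely continuous law little in
total variation. -/

set_option autoImplicit false

namespace Pool.Agent.N364.LD.Tva

open MeasureTheory Filter Pool.Agent.N659.HB
open scoped Topology ENNReal

noncomputable section

/-- continuity of translations in the mean -/
theorem trans (h : ℝ → ℝ) (hh : Integrable h) :
    Tendsto (fun t : ℝ => ∫ x, |h (x - t) - h x|) (𝓝 0) (𝓝 0) := by
  set H : Lp ℝ 1 (volume : Measure ℝ) := hh.toL1 h with hH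
  have hHae : (H : ℝ → ℝ) =ᵐ[volume] h := hh.coeFn_toL1
  let g : ℝ → C(ℝ, ℝ) := fun t => ⟨fun x => x - t, by fun_prop⟩
  have hgc : Continuous g :=
    (ContinuousMap.curry ⟨fun p : ℝ × ℝ => p.2 - p.1, by fun_prop⟩ : C(ℝ, C(ℝ, ℝ))).continuous
  have mp : ∀ t, MeasurePreserving (g t) volume volume := fun t =>
    measurePreserving_sub_right volume t
  have htend := (tendsto_const_nhds (x := H) (f := 𝓝 (0 : ℝ))).compMeasurePreservingLp
    (hgc.tendsto 0) mp (mp 0) (by norm_num)
  have hn := tendsto_iff_norm_sub_tendsto_zero.1 htend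
  have hc : ∀ t, (Lp.compMeasurePreserving (g t) (mp t) H : ℝ → ℝ) =ᵐ[volume]
      fun x => h (x - t) := by
    intro t
    have h1 := Lp.coeFn_compMeasurePreserving H (mp t)
    have h2 := (mp t).quasiMeasurePreserving.ae_eq_comp hHae
    exact h1.trans h2
  refine hn.congr fun t => ?_
  rw [L1.norm_eq_integral_norm]
  refine integral_congr_ae ?_
  have h3 := Lp.coeFn_sub (Lp.compMeasurePreserving (g t) (mp t) H)
    (Lp.compMeasurePreserving (g 0) (mp 0) H)
  filter_upwards [h3, hc t, hc 0] with x h4 h5 h6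
  rw [h4, Pi.sub_apply, h5, h6, sub_zero, Real.norm_eq_abs]

/-- the shifts of an absolutely continuous law -/
theorem shift (μ : Measure ℝ) [IsProbabilityMeasure μ] (hμ : μ ≪ volume) (η : ℝ) (hη : 0 < η) :
    ∃ t₀ : ℝ, 0 < t₀ ∧ ∀ t : ℝ, |t| ≤ t₀ → ∀ A : Set ℝ, MeasurableSet A →
      |(μ ((fun w => w + t) ⁻¹' A)).toReal - (μ A).toReal| ≤ η := by
  set h : ℝ → ℝ := fun x => (μ.rnDeriv volume x).toReal with hh
  have hint : Integrable h := Measure.integrable_toReal_rnDeriv
  have ht := trans h hint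
  rw [Metric.tendsto_nhds_nhds] at ht
  obtain ⟨t₀, ht₀, hb⟩ := ht η hη
  refine ⟨t₀ / 2, by positivity, fun t htt A hA => ?_⟩
  have h1 : (μ A).toReal = ∫ x in A, h x := (Measure.setIntegral_toReal_rnDeriv hμ A).symm
  have h2 : (μ ((fun w => w + t) ⁻¹' A)).toReal = ∫ x in A, h (x - t) := by
    have h3 : (μ ((fun w => w + t) ⁻¹' A)).toReal = ∫ x in (fun w => w + t) ⁻¹' A, h x :=
      (Measure.setIntegral_toReal_rnDeriv hμ _).symm
    rw [h3]
    have h4 := (measurePreserving_add_right volume t).setIntegral_preimage_emb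
      (measurableEmbedding_addRight t) (fun y => h (y - t)) A
    simpa using h4
  have hint2 : Integrable (fun x => h (x - t)) := hint.comp_sub_right t
  rw [h1, h2, ← integral_sub hint2.integrableOn hint.integrableOn]
  have h5 : |∫ x in A, (h (x - t) - h x)| ≤ ∫ x in A, |h (x - t) - h x| :=
    abs_integral_le_integral_abs
  have h6 : ∫ x in A, |h (x - t) - h x| ≤ ∫ x, |h (x - t) - h x| :=
    setIntegral_le_integral (hint2.sub hint).abs (Eventually.of_forall fun x => abs_nonneg _)
  have h7 := hb (x := t) (by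
    rw [Real.dist_eq, sub_zero]
    linarith)
  rw [Real.dist_eq, sub_zero] at h7
  exact (h5.trans h6).trans ((le_abs_self _).trans h7.le)

/-- the convolution as an integral -/
lemma cyl_real (μ : Measure ℝ) [IsProbabilityMeasure μ] (δ : ℝ) {A : Set ℝ}
    (hA : MeasurableSet A) :
    Measurable (fun a : ℝ => (μ ((fun w => w + δ * a) ⁻¹' A)).toReal) ∧
    (cyl μ δ A).toReal = ∫ a, (μ ((fun w => w + δ * a) ⁻¹' A)).toReal
      ∂(ProbabilityTheory.cauchyMeasure 0 1) := by
  have hf : Measurable (fun p : ℝ × ℝ => p.1 + δ * p.2) := by fun_prop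
  have hs : MeasurableSet ((fun p : ℝ × ℝ => p.1 + δ * p.2) ⁻¹' A) := hf hA
  have hm : Measurable (fun a : ℝ => μ ((fun w => w + δ * a) ⁻¹' A)) :=
    measurable_measure_prodMk_right hs
  refine ⟨hm.ennreal_toReal, ?_⟩
  unfold cyl
  rw [Measure.map_apply hf hA, Measure.prod_apply_symm hs, integral_toReal hm.aemeasurable
    (Eventually.of_forall fun a => measure_lt_top _ _)]
  rfl

theorem tail (C : Measure ℝ) [IsProbabilityMeasure C] (η : ℝ) (hη : 0 < η) :
    ∃ M : ℝ, 0 < M ∧ (C {a : ℝ | M < |a|}).toReal ≤ η := by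
  have hs : ∀ n : ℕ, MeasurableSet {a : ℝ | (n : ℝ) < |a|} := fun n =>
    measurableSet_lt measurable_const measurable_id.abs
  have ht : Tendsto (fun n : ℕ => C {a : ℝ | (n : ℝ) < |a|}) atTop
      (𝓝 (C (⋂ n : ℕ, {a : ℝ | (n : ℝ) < |a|}))) := by
    refine tendsto_measure_iInter_atTop (fun n => (hs n).nullMeasurableSet) ?_
      ⟨0, measure_ne_top _ _⟩
    intro n m hnm a ha
    have h1 : (m : ℝ) < |a| := ha
    have h2 : (n : ℝ) ≤ m := by exact_mod_cast hnm
    exact lt_of_le_of_lt h2 h1
  have he : (⋂ n : ℕ, {a : ℝ | (n : ℝ) < |a|}) = ∅ := by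
    apply Set.eq_empty_of_forall_notMem
    intro a ha
    obtain ⟨n, hn⟩ := exists_nat_gt |a|
    have h1 : (n : ℝ) < |a| := Set.mem_iInter.1 ha n
    linarith
  rw [he, measure_empty] at ht
  have ht2 := (ENNReal.tendsto_toReal ENNReal.zero_ne_top).comp ht
  rw [ENNReal.toReal_zero] at ht2
  obtain ⟨n, hn1, hn2⟩ := ((ht2.eventually_le_const hη).and (eventually_ge_atTop 1)).exists
  exact ⟨n, by exact_mod_cast hn2, hn1⟩

end

end Pool.Agent.N364.LD.Tva

namespace Pool.Agent.N364.LD.Tva

open MeasureTheory Filter Pool.Agent.N659.HB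
open scoped Topology ENNReal

theorem main : S_TVA := by
  intro μ _ ε hμ hε
  obtain ⟨t₀, ht₀, hsh⟩ := shift μ hμ (ε / 2) (by positivity)
  obtain ⟨M, hM, hta⟩ := tail (ProbabilityTheory.cauchyMeasure 0 1) (ε / 2) (by positivity)
  refine ⟨t₀ / M, by positivity, fun δ hδ hδn A hA => ?_⟩
  obtain ⟨hm, he⟩ := cyl_real μ δ hA
  have hle1 : ∀ S : Set ℝ, (μ S).toReal ≤ 1 := by
    intro S
    have := ENNReal.toReal_mono ENNReal.one_ne_top (prob_le_one (μ := μ) (s := S))
    simpa using this
  have hconst : (μ A).toReal = ∫ _ : ℝ, (μ A).toReal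
      ∂(ProbabilityTheory.cauchyMeasure 0 1) := by
    simp
  have hint1 : Integrable (fun a : ℝ => (μ ((fun w => w + δ * a) ⁻¹' A)).toReal)
      (ProbabilityTheory.cauchyMeasure 0 1) := by
    refine Integrable.mono' (integrable_const (1 : ℝ)) hm.aestronglyMeasurable
      (Eventually.of_forall fun a => ?_)
    rw [Real.norm_eq_abs, abs_of_nonneg ENNReal.toReal_nonneg]
    exact hle1 _
  rw [he, hconst, ← integral_sub hint1 (integrable_const _)]
  refine (abs_integral_le_integral_abs).trans ?_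
  have hs : MeasurableSet {a : ℝ | M < |a|} := measurableSet_lt measurable_const measurable_id.abs
  have hint2 : Integrable (fun a : ℝ => ε / 2 + ({a : ℝ | M < |a|}).indicator (fun _ => (1 : ℝ)) a)
      (ProbabilityTheory.cauchyMeasure 0 1) :=
    (integrable_const _).add ((integrable_const _).indicator hs)
  have hbound : ∀ a : ℝ, |(μ ((fun w => w + δ * a) ⁻¹' A)).toReal - (μ A).toReal| ≤
      ε / 2 + ({a : ℝ | M < |a|}).indicator (fun _ => (1 : ℝ)) a := by
    intro a
    by_cases ha : M < |a|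
    · rw [Set.indicator_of_mem (by exact ha)]
      have h1 := hle1 ((fun w => w + δ * a) ⁻¹' A)
      have h2 := hle1 A
      have h3 : 0 ≤ (μ ((fun w => w + δ * a) ⁻¹' A)).toReal := ENNReal.toReal_nonneg
      have h4 : 0 ≤ (μ A).toReal := ENNReal.toReal_nonneg
      rw [abs_le]
      constructor <;> linarith
    · rw [Set.indicator_of_notMem (by exact ha), add_zero]
      refine hsh (δ * a) ?_ A hA
      rw [abs_mul, abs_of_pos hδ]
      calc δ * |a| ≤ (t₀ / M) * M := mul_le_mul hδn (not_lt.1 ha) (abs_nonneg _) (by positivity)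
        _ = t₀ := by field_simp
  refine (integral_mono (hint1.sub (integrable_const _)).abs hint2 hbound).trans ?_
  rw [integral_add (integrable_const _) ((integrable_const _).indicator hs),
    integral_indicator hs, setIntegral_const, integral_const]
  simp only [Measure.real, measure_univ, ENNReal.toReal_one, smul_eq_mul, mul_one]
  linarith

end Pool.Agent.N364.LD.Tva
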